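import Mathlib

/-!
# Maximum likelihood estimates need not exist in the Weibull step-stress model

Three items on test, all of them failing after the change of stress, at the times
`1 + 10⁻⁸`, `1 + 16·10⁻⁸` and `2`, with `τ₁ = 1` and `η = 2`.
-/

open Finset

namespace Pool.Agent.Results.MP_1bbe3d_pr.NoMaximizer

/-- `u(t) = τ₁ + β (t - τ₁)`. -/
def u (τ₁ β t : ℝ) : ℝ := τ₁ + β * (t - τ₁)

/-- `Q(α, β)`; the failure times are `t 0 < t 1 < … < t (n₁ + n₂ - 1)`. -/
noncomputable def Q (τ₁ η : ℝ) (n n₁ n₂ : ℕ) (t : ℕ → ℝ) (α β : ℝ) : ℝ :=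
  ∑ i ∈ range n₁, t i ^ α + ∑ i ∈ Ico n₁ (n₁ + n₂), u τ₁ β (t i) ^ α +
    ((n : ℝ) - (n₁ + n₂)) * u τ₁ β η ^ α

/-- The log-likelihood `l(α, θ, β)`. -/
noncomputable def logLik (τ₁ η : ℝ) (n n₁ n₂ : ℕ) (t : ℕ → ℝ) (α θ β : ℝ) : ℝ :=
  ((n₁ : ℝ) + n₂) * Real.log α + n₂ * Real.log β - (n₁ + n₂) * α * Real.log θ +
    (α - 1) * (∑ i ∈ range n₁, Real.log (t i) +
      ∑ i ∈ Ico n₁ (n₁ + n₂), Real.log (u τ₁ β (t i))) -
    θ ^ (-α) * Q τ₁ η n n₁ n₂ t α β

/-- Admissible data: `0 < t₁ < … < t_{n₁} ≤ τ₁ < t_{n₁+1} < … < t_m ≤ η`, `m = n₁ + n₂ ≤ n`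
(here the failure times are indexed from `0`). -/
structure IsData (τ₁ η : ℝ) (n n₁ n₂ : ℕ) (t : ℕ → ℝ) : Prop where
  le : n₁ + n₂ ≤ n
  pos : ∀ i < n₁ + n₂, 0 < t i
  increasing : ∀ i j, i < j → j < n₁ + n₂ → t i < t j
  first : ∀ i < n₁, t i ≤ τ₁
  second : ∀ i, n₁ ≤ i → i < n₁ + n₂ → τ₁ < t i
  stop : ∀ i < n₁ + n₂, t i ≤ η

/-- The maximum likelihood estimates exist. -/
def MLEExists (τ₁ η : ℝ) (n n₁ n₂ : ℕ) (t : ℕ → ℝ) : Prop :=
  ∃ α θ β : ℝ, 0 < α ∧ 0 < θ ∧ 0 < β ∧ ∀ α' θ' β' : ℝ, 0 < α' → 0 < θ' → 0 < β' →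
    logLik τ₁ η n n₁ n₂ t α' θ' β' ≤ logLik τ₁ η n n₁ n₂ t α θ β

/-! ### The example -/

/-- the failure times of the example -/
noncomputable def tt : ℕ → ℝ := fun i => if i = 0 then 1 + 1 / 10 ^ 8 else
  if i = 1 then 1 + 16 / 10 ^ 8 else 2

/-- shifted data -/
noncomputable def x1 (δ : ℝ) : ℝ := δ + 1 / 10 ^ 8
/-- shifted data -/
noncomputable def x2 (δ : ℝ) : ℝ := δ + 16 / 10 ^ 8
/-- shifted data -/
noncomputable def x3 (δ : ℝ) : ℝ := δ + 1

/-- power sum -/
noncomputable def S (α δ : ℝ) : ℝ := x1 δ ^ α + x2 δ ^ α + x3 δ ^ α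

/-- the profile log-likelihood -/
noncomputable def P (α δ : ℝ) : ℝ :=
  3 * Real.log α + (α - 1) * (Real.log (x1 δ) + Real.log (x2 δ) + Real.log (x3 δ)) -
    3 * Real.log (S α δ / 3) - 3

theorem x1_pos {δ : ℝ} (h : 0 < δ) : 0 < x1 δ := by unfold x1; positivity
theorem x2_pos {δ : ℝ} (h : 0 < δ) : 0 < x2 δ := by unfold x2; positivity
theorem x3_pos {δ : ℝ} (h : 0 < δ) : 0 < x3 δ := by unfold x3; positivity

theorem S_pos {α δ : ℝ} (h : 0 < δ) : 0 < S α δ := by
  have h1 := x1_pos h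
  have h2 := x2_pos h
  have h3 := x3_pos h
  unfold S
  positivity

theorem logLik_eq {α θ δ : ℝ} (hθ : 0 < θ) (hδ : 0 < δ) :
    logLik 1 2 3 0 3 tt α θ δ⁻¹ = 3 * Real.log α - 3 * α * Real.log δ - 3 * α * Real.log θ +
      (α - 1) * (Real.log (x1 δ) + Real.log (x2 δ) + Real.log (x3 δ)) -
      (θ * δ) ^ (-α) * S α δ := by
  have h1 := x1_pos hδ
  have h2 := x2_pos hδ
  have h3 := x3_pos hδ
  have e1 : u 1 δ⁻¹ (tt 0) = δ⁻¹ * x1 δ := by
    unfold u tt x1; simp; field_simp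
  have e2 : u 1 δ⁻¹ (tt 1) = δ⁻¹ * x2 δ := by
    unfold u tt x2; simp; field_simp
  have e3 : u 1 δ⁻¹ (tt 2) = δ⁻¹ * x3 δ := by
    unfold u tt x3; simp; field_simp; ring
  have hQ : Q 1 2 3 0 3 tt α δ⁻¹ = δ ^ (-α) * S α δ := by
    unfold Q
    have : Ico 0 (0 + 3) = {0, 1, 2} := by decide
    rw [this]
    simp only [range_zero, sum_empty, zero_add]
    rw [sum_insert (by simp), sum_insert (by simp), sum_singleton, e1, e2, e3,
      Real.mul_rpow (by positivity) h1.le, Real.mul_rpow (by positivity) h2.le,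
      Real.mul_rpow (by positivity) h3.le, Real.inv_rpow hδ.le, ← Real.rpow_neg hδ.le]
    unfold S
    push_cast
    ring
  unfold logLik
  rw [hQ]
  have : Ico 0 (0 + 3) = {0, 1, 2} := by decide
  rw [this]
  simp only [range_zero, sum_empty, zero_add]
  rw [sum_insert (by simp), sum_insert (by simp), sum_singleton, e1, e2, e3,
    Real.log_mul (by positivity) h1.ne', Real.log_mul (by positivity) h2.ne',
    Real.log_mul (by positivity) h3.ne', Real.log_inv, Real.mul_rpow hθ.le hδ.le]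
  push_cast
  ring

theorem logLik_eq' {α θ δ : ℝ} (hθ : 0 < θ) (hδ : 0 < δ) :
    logLik 1 2 3 0 3 tt α θ δ⁻¹ = P α δ -
      ((θ * δ) ^ (-α) * S α δ - 3 - 3 * Real.log ((θ * δ) ^ (-α) * S α δ / 3)) := by
  have hS := S_pos (α := α) hδ
  rw [logLik_eq hθ hδ]
  unfold P
  rw [mul_div_assoc, Real.log_mul (by positivity) (by positivity), Real.log_rpow (by positivity),
    Real.log_mul hθ.ne' hδ.ne']
  ring

theorem logLik_le {α θ δ : ℝ} (hθ : 0 < θ) (hδ : 0 < δ) :
    logLik 1 2 3 0 3 tt α θ δ⁻¹ ≤ P α δ := by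
  have hS := S_pos (α := α) hδ
  rw [logLik_eq' hθ hδ]
  have h : 0 < (θ * δ) ^ (-α) * S α δ / 3 := by positivity
  have := Real.log_le_sub_one_of_pos h
  linarith

theorem exists_theta {α δ : ℝ} (hα : 0 < α) (hδ : 0 < δ) :
    ∃ θ, 0 < θ ∧ logLik 1 2 3 0 3 tt α θ δ⁻¹ = P α δ := by
  have hS := S_pos (α := α) hδ
  refine ⟨(S α δ / 3) ^ (1 / α) / δ, by positivity, ?_⟩
  rw [logLik_eq' (by positivity) hδ]
  have h1 : (S α δ / 3) ^ (1 / α) / δ * δ = (S α δ / 3) ^ (1 / α) := by field_simp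
  have h2 : ((S α δ / 3) ^ (1 / α)) ^ (-α) = (S α δ / 3)⁻¹ := by
    rw [← Real.rpow_mul (by positivity), show 1 / α * -α = -1 by field_simp, Real.rpow_neg_one]
  rw [h1, h2]
  have h3 : (S α δ / 3)⁻¹ * S α δ = 3 := by field_simp
  rw [h3]
  simp

/-- for `α ≤ 1` the profile increases when `δ` decreases -/
theorem case_small {α δ : ℝ} (hα : 0 < α) (hα1 : α ≤ 1) (hδ : 0 < δ) :
    P α δ < P α (δ / 2) := by
  have hδ' : 0 < δ / 2 := by positivity
  have a1 := x1_pos hδ'
  have a2 := x2_pos hδ'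
  have a3 := x3_pos hδ'
  have b1 : x1 (δ / 2) < x1 δ := by unfold x1; linarith
  have b2 : x2 (δ / 2) < x2 δ := by unfold x2; linarith
  have b3 : x3 (δ / 2) < x3 δ := by unfold x3; linarith
  have c1 := Real.log_lt_log a1 b1
  have c2 := Real.log_lt_log a2 b2
  have c3 := Real.log_lt_log a3 b3
  have d1 := Real.rpow_lt_rpow a1.le b1 hα
  have d2 := Real.rpow_lt_rpow a2.le b2 hα
  have d3 := Real.rpow_lt_rpow a3.le b3 hα
  have hS : S α (δ / 2) / 3 < S α δ / 3 := by unfold S; linarith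
  have hS0 := S_pos (α := α) hδ'
  have hlog := Real.log_lt_log (by positivity) hS
  unfold P
  nlinarith

/-- for `α > 1` and small `δ` the value `α = 1` is better -/
theorem case_near {α δ : ℝ} (hα1 : 1 < α) (hδ : 0 < δ) (hδ1 : δ ≤ 1 / 10) :
    P α δ < P 1 δ := by
  have a1 := x1_pos hδ
  have a2 := x2_pos hδ
  have a3 := x3_pos hδ
  have h12 : x1 δ ≤ x2 δ := by unfold x1 x2; norm_num
  have h23 : 10 * x2 δ ≤ x3 δ := by unfold x2 x3; norm_num; linarith
  set y1 := Real.log (x1 δ) with hy1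
  set y2 := Real.log (x2 δ) with hy2
  set y3 := Real.log (x3 δ) with hy3
  set X := x1 δ + x2 δ + x3 δ with hX
  have hXpos : 0 < X := by positivity
  have hlog10 : (23 / 10 : ℝ) ≤ Real.log 10 := by
    rw [Real.le_log_iff_exp_le (by norm_num)]
    have h := Real.exp_one_lt_d9
    have h1 : Real.exp (23 / 10) = (Real.exp 1) ^ (23 / 10 : ℝ) := by
      rw [← Real.exp_mul]; norm_num
    have h2 : (Real.exp (23 / 10)) ^ 10 ≤ (10 : ℝ) ^ 10 := by
      have h3 : (Real.exp (23 / 10)) ^ 10 = (Real.exp 1) ^ 23 := by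
        rw [← Real.exp_nat_mul, ← Real.exp_nat_mul]; norm_num
      rw [h3]
      calc (Real.exp 1) ^ 23 ≤ (2.7182818286 : ℝ) ^ 23 :=
            pow_le_pow_left₀ (Real.exp_pos _).le h.le 23
        _ ≤ 10 ^ 10 := by norm_num
    exact le_of_pow_le_pow_left₀ (by norm_num) (by norm_num) h2
  have hy32 : 23 / 10 ≤ y3 - y2 := by
    have h := Real.log_le_log (by positivity) h23
    rw [Real.log_mul (by norm_num) a2.ne'] at h
    linarith
  have hy31 : 23 / 10 ≤ y3 - y1 := by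
    have := Real.log_le_log a1 h12
    linarith
  -- the weighted mean
  set c := (x1 δ * y1 + x2 δ * y2 + x3 δ * y3) / X with hc
  have hcX : c * X = x1 δ * y1 + x2 δ * y2 + x3 δ * y3 := by rw [hc]; field_simp
  have hcy : 1 ≤ c - (y1 + y2 + y3) / 3 := by
    have hp1 : 10 * x1 δ ≤ X := by linarith
    have hp2 : 10 * x2 δ ≤ X := by linarith
    have key : X * 1 ≤ X * (c - (y1 + y2 + y3) / 3) := by
      have e : X * (c - (y1 + y2 + y3) / 3) =
          (X / 3 - x1 δ) * (y3 - y1) + (X / 3 - x2 δ) * (y3 - y2) := by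
        have : X * (c - (y1 + y2 + y3) / 3) = c * X - X * (y1 + y2 + y3) / 3 := by ring
        rw [this, hcX, hX]
        ring
      rw [e]
      have h1 : 7 / 30 * X ≤ X / 3 - x1 δ := by linarith
      have h2 : 7 / 30 * X ≤ X / 3 - x2 δ := by linarith
      have h3 : 7 / 30 * X * (23 / 10) ≤ (X / 3 - x1 δ) * (y3 - y1) :=
        mul_le_mul h1 hy31 (by norm_num) (by linarith)
      have h4 : 7 / 30 * X * (23 / 10) ≤ (X / 3 - x2 δ) * (y3 - y2) :=
        mul_le_mul h2 hy32 (by norm_num) (by linarith)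
      linarith
    exact le_of_mul_le_mul_left key hXpos
  -- Jensen
  have hJ : Real.exp ((α - 1) * c) * X ≤ S α δ := by
    have hterm : ∀ x : ℝ, 0 < x → x * (Real.exp ((α - 1) * c) *
        (1 + (α - 1) * (Real.log x - c))) ≤ x ^ α := by
      intro x hx
      have h1 : x ^ α = x * (Real.exp ((α - 1) * c) *
          Real.exp ((α - 1) * (Real.log x - c))) := by
        rw [← Real.exp_add, ← mul_add]
        rw [show c + (Real.log x - c) = Real.log x by ring]
        rw [mul_comm (α - 1), Real.exp_mul, Real.exp_log hx, Real.rpow_sub_one hx.ne']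
        field_simp
      rw [h1]
      refine mul_le_mul_of_nonneg_left (mul_le_mul_of_nonneg_left ?_ (Real.exp_pos _).le) hx.le
      have := Real.add_one_le_exp ((α - 1) * (Real.log x - c))
      linarith
    have t1 := hterm _ a1
    have t2 := hterm _ a2
    have t3 := hterm _ a3
    have hsum : x1 δ * (Real.exp ((α - 1) * c) * (1 + (α - 1) * (y1 - c))) +
        x2 δ * (Real.exp ((α - 1) * c) * (1 + (α - 1) * (y2 - c))) +
        x3 δ * (Real.exp ((α - 1) * c) * (1 + (α - 1) * (y3 - c))) =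
        Real.exp ((α - 1) * c) * X := by
      have : x1 δ * (Real.exp ((α - 1) * c) * (1 + (α - 1) * (y1 - c))) +
        x2 δ * (Real.exp ((α - 1) * c) * (1 + (α - 1) * (y2 - c))) +
        x3 δ * (Real.exp ((α - 1) * c) * (1 + (α - 1) * (y3 - c))) =
        Real.exp ((α - 1) * c) * (X + (α - 1) * ((x1 δ * y1 + x2 δ * y2 + x3 δ * y3) - c * X)) := by
        rw [hX]; ring
      rw [this, hcX]
      ring
    unfold S
    linarith
  have hlogS : (α - 1) * c + Real.log (X / 3) ≤ Real.log (S α δ / 3) := by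
    have h1 : Real.exp ((α - 1) * c) * (X / 3) ≤ S α δ / 3 := by linarith
    have h2 := Real.log_le_log (by positivity) h1
    rwa [Real.log_mul (Real.exp_pos _).ne' (by positivity), Real.log_exp] at h2
  have hS1 : S 1 δ = X := by unfold S; simp [hX]
  have hlogα : Real.log α < α - 1 := Real.log_lt_sub_one_of_pos (by linarith) hα1.ne'
  unfold P
  rw [hS1, Real.log_one]
  nlinarith [mul_le_mul_of_nonneg_left hcy (show (0 : ℝ) ≤ α - 1 by linarith)]

/-- for `α > 1` and large `δ` the value at `α = 1/4`, `δ = 10⁻⁸` is better -/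
theorem case_far {α δ : ℝ} (hα1 : 1 < α) (hδ1 : 1 / 10 < δ) :
    P α δ < P (1 / 4) (1 / 10 ^ 8) := by
  have hδ : 0 < δ := by linarith
  have a1 := x1_pos hδ
  have a2 := x2_pos hδ
  have a3 := x3_pos hδ
  -- upper bound at `(α, δ)`
  have hup : P α δ ≤ 3 * (Real.log 55 - 2) := by
    set y1 := Real.log (x1 δ) with hy1
    set y2 := Real.log (x2 δ) with hy2
    set y3 := Real.log (x3 δ) with hy3
    have h1 : Real.log (x3 δ ^ α / 3) ≤ Real.log (S α δ / 3) := by
      refine Real.log_le_log (by positivity) ?_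
      have : 0 < x1 δ ^ α := by positivity
      have : 0 < x2 δ ^ α := by positivity
      unfold S
      linarith
    rw [Real.log_div (by positivity) (by norm_num), Real.log_rpow a3] at h1
    set k := y3 - (y1 + y2 + y3) / 3 with hk
    have hq : 3 / 5 / (δ + 1) ≤ k := by
      have h12 : y1 ≤ y2 := Real.log_le_log a1 (by unfold x1 x2; norm_num)
      have h23 : 1 - x2 δ / x3 δ ≤ y3 - y2 := by
        have h := Real.add_one_le_exp (y2 - y3)
        rw [Real.exp_sub, Real.exp_log a2, Real.exp_log a3] at h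
        have h5 : y2 - y3 + 1 ≤ x2 δ / x3 δ := h
        linarith [Real.log_le_sub_one_of_pos (show 0 < x2 δ / x3 δ by positivity),
          Real.log_div a2.ne' a3.ne']
      have h4 : 1 - x2 δ / x3 δ = (1 - 16 / 10 ^ 8) / (δ + 1) := by
        unfold x2 x3
        field_simp
        ring
      rw [h4] at h23
      have h6 : 9 / 10 / (δ + 1) ≤ (1 - 16 / 10 ^ 8) / (δ + 1) :=
        div_le_div_of_nonneg_right (by norm_num) (by linarith)
      have h7 : 3 / 5 / (δ + 1) = 2 / 3 * (9 / 10 / (δ + 1)) := by ring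
      rw [h7, hk]
      linarith
    have hk0 : 0 < k := lt_of_lt_of_le (by positivity) hq
    have h2 : Real.log α - α * k ≤ -Real.log k - 1 := by
      have := Real.log_le_sub_one_of_pos (show 0 < α * k by positivity)
      rw [Real.log_mul (by linarith) hk0.ne'] at this
      linarith
    have h3 : -Real.log k ≤ Real.log (5 / 3 * (δ + 1)) := by
      rw [← Real.log_inv]
      refine Real.log_le_log (by positivity) ?_
      rw [inv_le_comm₀ hk0 (by positivity)]
      refine le_trans (le_of_eq ?_) hq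
      field_simp
    have h4 : Real.log δ ≤ (y1 + y2 + y3) / 3 := by
      have b1 : Real.log δ ≤ y1 := Real.log_le_log hδ (by unfold x1; norm_num)
      have b2 : Real.log δ ≤ y2 := Real.log_le_log hδ (by unfold x2; norm_num)
      have b3 : Real.log δ ≤ y3 := Real.log_le_log hδ (by unfold x3; norm_num)
      linarith
    have h5 : Real.log 3 + Real.log (5 / 3 * (δ + 1)) - Real.log δ ≤ Real.log 55 := by
      rw [← Real.log_mul (by norm_num) (by positivity), ← Real.log_div (by positivity) hδ.ne']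
      refine Real.log_le_log (by positivity) ?_
      rw [div_le_iff₀ hδ]
      linarith
    unfold P
    nlinarith
  -- lower bound
  have hd : (0 : ℝ) < 1 / 10 ^ 8 := by positivity
  have hlow : 3 * (Real.log 55 - 2) < P (1 / 4) (1 / 10 ^ 8) := by
    have b1 := x1_pos hd
    have b2 := x2_pos hd
    have b3 := x3_pos hd
    have hroot : ∀ x r : ℝ, 0 ≤ r → 0 ≤ x → x ≤ r ^ 4 → x ^ (1 / 4 : ℝ) ≤ r := by
      intro x r hr hx hxr
      have h1 := Real.rpow_le_rpow hx hxr (show (0 : ℝ) ≤ 1 / 4 by norm_num)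
      rw [← Real.rpow_natCast, ← Real.rpow_mul hr] at h1
      norm_num at h1
      convert h1 using 2
    have c1 := hroot _ (2 / 100) (by norm_num) b1.le (by unfold x1; norm_num)
    have c2 := hroot _ (3 / 100) (by norm_num) b2.le (by unfold x2; norm_num)
    have c3 := hroot _ (11 / 10) (by norm_num) b3.le (by unfold x3; norm_num)
    have hS : S (1 / 4) (1 / 10 ^ 8) / 3 ≤ 23 / 60 := by unfold S; linarith
    have hSpos := S_pos (α := 1 / 4) hd
    have hlogS := Real.log_le_log (by positivity) hS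
    have hprod : Real.log (x1 (1 / 10 ^ 8)) + Real.log (x2 (1 / 10 ^ 8)) +
        Real.log (x3 (1 / 10 ^ 8)) ≤ -12 * Real.log 10 := by
      rw [← Real.log_mul b1.ne' b2.ne', ← Real.log_mul (by positivity) b3.ne']
      have : -12 * Real.log 10 = Real.log (1 / 10 ^ 12) := by
        rw [one_div, Real.log_inv, Real.log_pow]; push_cast; ring
      rw [this]
      refine Real.log_le_log (by positivity) ?_
      unfold x1 x2 x3
      norm_num
    have h55 : Real.log 55 + Real.log 4 + Real.log (23 / 60) < 3 * Real.log 10 := by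
      have h6 : 3 * Real.log 10 = Real.log (10 ^ 3) := by rw [Real.log_pow]; norm_num
      rw [h6, ← Real.log_mul (by norm_num) (by norm_num), ← Real.log_mul (by norm_num) (by norm_num)]
      exact Real.log_lt_log (by norm_num) (by norm_num)
    have h14 : Real.log (1 / 4) = -Real.log 4 := by rw [one_div, Real.log_inv]
    unfold P
    rw [h14]
    nlinarith
  linarith

/-- **Q1 is false.** There are data with `n₂ ≥ 1` and `n₁ + n₂ ≥ 3` for which the log-likelihood
does not attain its supremum on `(0, ∞)³`. -/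
theorem result : ∃ (τ₁ η : ℝ) (n n₁ n₂ : ℕ) (t : ℕ → ℝ), 0 < τ₁ ∧ τ₁ < η ∧ 1 ≤ n ∧
    IsData τ₁ η n n₁ n₂ t ∧ n₂ ≠ 0 ∧ 3 ≤ n₁ + n₂ ∧ ¬ MLEExists τ₁ η n n₁ n₂ t := by
  refine ⟨1, 2, 3, 0, 3, tt, by norm_num, by norm_num, by norm_num, ?_, by norm_num, by norm_num,
    ?_⟩
  · refine ⟨by norm_num, ?_, ?_, by simp, ?_, ?_⟩
    · intro i _
      unfold tt
      split_ifs <;> norm_num
    · intro i j hij hj
      have : (i = 0 ∧ j = 1) ∨ (i = 0 ∧ j = 2) ∨ (i = 1 ∧ j = 2) := by omega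
      rcases this with ⟨rfl, rfl⟩ | ⟨rfl, rfl⟩ | ⟨rfl, rfl⟩ <;> norm_num [tt]
    · intro i _ _
      unfold tt
      split_ifs <;> norm_num
    · intro i _
      unfold tt
      split_ifs <;> norm_num
  · rintro ⟨α, θ, β, hα, hθ, hβ, hmax⟩
    obtain ⟨δ, hδ, rfl⟩ : ∃ δ, 0 < δ ∧ β = δ⁻¹ := ⟨β⁻¹, by positivity, by simp⟩
    have hP : ∀ α' δ' : ℝ, 0 < α' → 0 < δ' → P α' δ' ≤ P α δ := by
      intro α' δ' hα' hδ'
      obtain ⟨θ', hθ', h1⟩ := exists_theta hα' hδ'
      rw [← h1]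
      exact (hmax α' θ' δ'⁻¹ hα' hθ' (by positivity)).trans (logLik_le hθ hδ)
    rcases le_or_gt α 1 with h1 | h1
    · exact absurd (hP α (δ / 2) hα (by positivity)) (not_le.2 (case_small hα h1 hδ))
    · rcases le_or_gt δ (1 / 10) with h2 | h2
      · exact absurd (hP 1 δ one_pos hδ) (not_le.2 (case_near h1 hδ h2))
      · exact absurd (hP (1 / 4) (1 / 10 ^ 8) (by norm_num) (by positivity))
          (not_le.2 (case_far h1 h2))

end Pool.Agent.Results.MP_1bbe3d_pr.NoMaximizer
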